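import Pool.Agent.Helper19.TGX.Goals
import Pool.Agent.Helper85.T3.DADD

/-!
# Project TGX (MP_a41896_nt), packet TGX-GAD (helper96): a natural map with a derivative is additive up to a constant
-/

set_option autoImplicit false

namespace Pool.Agent.Helper96.TGX.GAD

open WeierstrassCurve
open Pool.Agent.Helper29.BL Pool.Agent.Helper42.SG
open Pool.Agent.Helper60.T3 (WL zd IP)
open Pool.Agent.Helper92.TG (mp)
open Pool.Agent.Helper19.TGX (GMap GDer GAdd CST EMB2 IN1 IN2 PTS MPX)

noncomputable section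

/-- the defect of additivity, `g(P + Q) - g(P) - g(Q)` -/
def df {k : Type} [Field k] {W W' : Affine k} (g : GMap W W') (F : Type) [Field F]
    [DecidableEq F] [Algebra k F] (P Q : (WL F W).Point) : (WL F W').Point :=
  g.f F (P + Q) - g.f F P - g.f F Q

/-- the defect is natural -/
theorem df_nat {k : Type} [Field k] {W W' : Affine k} (g : GMap W W') (F F' : Type) [Field F]
    [DecidableEq F] [Algebra k F] [Field F'] [DecidableEq F'] [Algebra k F'] (j : F →ₐ[k] F')
    (P Q : (WL F W).Point) (h1 : Transcendental k (xc P)) (h2 : Transcendental k (xc Q))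
    (h3 : Transcendental k (xc (P + Q))) :
    df g F' (mp j P) (mp j Q) = mp j (df g F P Q) := by
  have e1 : g.f F' (mp j P) = mp j (g.f F P) := g.nat F F' j P h1
  have e2 : g.f F' (mp j Q) = mp j (g.f F Q) := g.nat F F' j Q h2
  have e3 : g.f F' (mp j (P + Q)) = mp j (g.f F (P + Q)) := g.nat F F' j (P + Q) h3
  have e4 : mp j (P + Q) = mp j P + mp j Q := map_add (Affine.Point.map (W' := W) j) P Q
  unfold df
  rw [← e4, e1, e2, e3]
  have e5 : ∀ R S : (WL F W').Point, mp j (R - S) = mp j R - mp j S := fun R S =>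
    map_sub (Affine.Point.map (W' := W') j) R S
  rw [e5, e5]

theorem t (hCST : CST) (hEMB : EMB2) (hIN1 : IN1) (hIN2 : IN2) (hPTS : PTS) (hMPX : MPX) :
    Pool.Agent.Helper19.TGX.GAD := by
  intro k _ _ _ _ W W' hW hW' g a hg
  have key : ∀ (F : Type) [Field F] [DecidableEq F] [Algebra k F] (P Q : (WL F W).Point),
      AlgebraicIndependent k ![xc P, xc Q] → ∃ t : (WL k W').Point,
        mp (Algebra.ofId k F) t = df g F P Q := by
    intro F _ _ _ P Q hPQ
    have : CharZero F := charZero_of_injective_algebraMap (algebraMap k F).injective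
    obtain ⟨h1, h2, h3, -⟩ := hIN2 k W hW F P Q hPQ
    have hWF : (WL F W').IsElliptic := by
      unfold WL
      infer_instance
    refine hCST k W' hW' F _ fun D => ?_
    have hneg : ∀ S : (WL F W').Point, zd D (-S) = - zd D S := by
      intro S
      obtain ⟨e1, e2⟩ := (hPTS F (WL F W') hWF).2.2 S
      unfold zd
      rw [e1, e2, div_neg]
    have hd := Pool.Agent.Helper85.T3.DADD.t
    have e1 := hd k F W' D (g.f F (P + Q) + -g.f F P) (-g.f F Q)
    have e2 := hd k F W' D (g.f F (P + Q)) (-g.f F P)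
    have e3 := hd k F W D P Q
    unfold df
    rw [sub_eq_add_neg, sub_eq_add_neg, e1, e2, hneg, hneg, hg F D _ h3, hg F D _ h1,
      hg F D _ h2, e3]
    ring
  obtain ⟨L, _, _, _, _, P₀, Q₀, h0, hal⟩ := hIN1 k W hW
  obtain ⟨t, ht⟩ := key L P₀ Q₀ h0
  refine ⟨t, ?_⟩
  intro F _ _ _ P Q hPQ
  classical
  let i : F →ₐ[k] AlgebraicClosure F := IsScalarTower.toAlgHom k F (AlgebraicClosure F)
  have hx : ∀ R : (WL F W).Point, xc (mp i R) = i (xc R) := fun R =>
    (hMPX k W F (AlgebraicClosure F) i R).1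
  have hi : AlgebraicIndependent k ![xc (mp i P), xc (mp i Q)] := by
    have e : ![xc (mp i P), xc (mp i Q)] = i ∘ ![xc P, xc Q] := by
      rw [hx, hx]
      funext l
      fin_cases l <;> rfl
    rw [e]
    exact hPQ.map' i.injective
  obtain ⟨j, hj1, hj2⟩ := hEMB k W hW L (AlgebraicClosure F) P₀ Q₀ (mp i P) (mp i Q) h0 hi hal
  obtain ⟨a1, a2, a3, -⟩ := hIN2 k W hW F P Q hPQ
  obtain ⟨b1, b2, b3, -⟩ := hIN2 k W hW L P₀ Q₀ h0
  have e1 := df_nat g F (AlgebraicClosure F) i P Q a1 a2 a3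
  have e2 := df_nat g L (AlgebraicClosure F) j P₀ Q₀ b1 b2 b3
  rw [hj1, hj2, e1] at e2
  have e3 : ∀ (F₁ F₂ : Type) [Field F₁] [DecidableEq F₁] [Algebra k F₁] [Field F₂]
      [DecidableEq F₂] [Algebra k F₂] (u : F₁ →ₐ[k] F₂),
      mp u (mp (Algebra.ofId k F₁) t) = mp (Algebra.ofId k F₂) t := by
    intro F₁ F₂ _ _ _ _ _ _ u
    have e4 : u.comp (Algebra.ofId k F₁) = Algebra.ofId k F₂ := Subsingleton.elim _ _
    rw [← e4]
    exact Affine.Point.map_map (W' := W') (f := Algebra.ofId k F₁) (g := u) t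
  rw [← ht, e3, ← e3 F (AlgebraicClosure F) i] at e2
  have e5 : df g F P Q = mp (Algebra.ofId k F) t :=
    Affine.Point.map_injective (W' := W') (f := i) e2
  have e6 : g.f F (P + Q) - g.f F P - g.f F Q = mp (Algebra.ofId k F) t := e5
  rw [← e6]
  abel

end

end Pool.Agent.Helper96.TGX.GAD
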